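import Pool.Agent.Q120.FX.Stm1

set_option autoImplicit false

/-! JOB FX-X3: the convolution identity. -/

namespace Pool.Agent.Q79.FX

open MeasureTheory Filter Topology Set
open Pool.Agent.Q120.FX

variable {q : ℕ}

lemma Icc_eq (M : ℕ) : Finset.Icc 1 M = Finset.Ioc 0 M := by
  ext k
  simp only [Finset.mem_Icc, Finset.mem_Ioc]
  omega

lemma Mc_small (χ : DirichletCharacter ℂ q) {z : ℝ} (hz : z < 1) : Mc χ z = 0 := by
  unfold Mc
  have : ⌊z⌋₊ = 0 := Nat.floor_eq_zero.2 hz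
  rw [this]
  simp

lemma Mc_meas (χ : DirichletCharacter ℂ q) : Measurable (Mc χ) := by
  have : Mc χ = (fun N : ℕ => ∑ n ∈ Finset.Icc 1 N,
      ((ArithmeticFunction.moebius n : ℤ) : ℂ) * χ (n : ZMod q)) ∘ (fun x : ℝ => ⌊x⌋₊) := rfl
  rw [this]
  exact (measurable_from_nat).comp Nat.measurable_floor

lemma Mc_norm (χ : DirichletCharacter ℂ q) {z : ℝ} (hz : 0 ≤ z) : ‖Mc χ z‖ ≤ z := by
  unfold Mc
  calc ‖∑ n ∈ Finset.Icc 1 ⌊z⌋₊, ((ArithmeticFunction.moebius n : ℤ) : ℂ) * χ (n : ZMod q)‖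
      ≤ ∑ n ∈ Finset.Icc 1 ⌊z⌋₊, ‖((ArithmeticFunction.moebius n : ℤ) : ℂ) * χ (n : ZMod q)‖ :=
        norm_sum_le _ _
    _ ≤ ∑ n ∈ Finset.Icc 1 ⌊z⌋₊, (1 : ℝ) := by
        refine Finset.sum_le_sum fun n _ => ?_
        rw [norm_mul]
        have h1 : ‖((ArithmeticFunction.moebius n : ℤ) : ℂ)‖ ≤ 1 := by
          rw [Complex.norm_intCast]
          exact_mod_cast ArithmeticFunction.abs_moebius_le_one
        have h2 : ‖χ (n : ZMod q)‖ ≤ 1 := χ.norm_le_one _
        calc _ ≤ (1 : ℝ) * 1 := mul_le_mul h1 h2 (norm_nonneg _) zero_le_one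
          _ = 1 := one_mul 1
    _ = (⌊z⌋₊ : ℝ) := by simp
    _ ≤ z := Nat.floor_le hz

/-- Möbius inversion -/
lemma conv_one (χ : DirichletCharacter ℂ q) (N : ℕ) (hN : 1 ≤ N) :
    ∑ n ∈ Finset.Icc 1 N, χ (n : ZMod q) * ∑ m ∈ Finset.Icc 1 (N / n),
      ((ArithmeticFunction.moebius m : ℤ) : ℂ) * χ (m : ZMod q) = 1 := by
  let f : ArithmeticFunction ℂ := ⟨fun n => if n = 0 then 0 else χ (n : ZMod q), by simp⟩
  let g : ArithmeticFunction ℂ :=
    ⟨fun n => ((ArithmeticFunction.moebius n : ℤ) : ℂ) * χ (n : ZMod q), by simp⟩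
  have h1 := ArithmeticFunction.sum_Ioc_mul_eq_sum_sum f g N
  have h2 : ∑ n ∈ Finset.Icc 1 N, χ (n : ZMod q) * ∑ m ∈ Finset.Icc 1 (N / n),
      ((ArithmeticFunction.moebius m : ℤ) : ℂ) * χ (m : ZMod q) =
      ∑ n ∈ Finset.Ioc 0 N, f n * ∑ m ∈ Finset.Ioc 0 (N / n), g m := by
    rw [Icc_eq]
    refine Finset.sum_congr rfl fun n hn => ?_
    have hn0 : n ≠ 0 := by
      rw [Finset.mem_Ioc] at hn
      omega
    rw [Icc_eq]
    have : f n = χ (n : ZMod q) := if_neg hn0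
    rw [this]
    rfl
  rw [h2, ← h1]
  have h3 : ∀ k ∈ Finset.Ioc 0 N, (f * g) k = if k = 1 then 1 else 0 := by
    intro k hk
    have hk0 : k ≠ 0 := by
      rw [Finset.mem_Ioc] at hk
      omega
    rw [ArithmeticFunction.mul_apply]
    have h4 : ∀ p ∈ k.divisorsAntidiagonal, f p.1 * g p.2 =
        χ (k : ZMod q) * ((ArithmeticFunction.moebius p.2 : ℤ) : ℂ) := by
      intro p hp
      rw [Nat.mem_divisorsAntidiagonal] at hp
      have hp1 : p.1 ≠ 0 := by
        intro h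
        rw [h, zero_mul] at hp
        exact hp.2 hp.1.symm
      have e1 : f p.1 = χ (p.1 : ZMod q) := if_neg hp1
      have e2 : g p.2 = ((ArithmeticFunction.moebius p.2 : ℤ) : ℂ) * χ (p.2 : ZMod q) := rfl
      rw [e1, e2, ← hp.1]
      push_cast
      rw [map_mul]
      ring
    rw [Finset.sum_congr rfl h4, ← Finset.mul_sum]
    have h5 : ∑ p ∈ k.divisorsAntidiagonal, ((ArithmeticFunction.moebius p.2 : ℤ) : ℂ) =
        if k = 1 then 1 else 0 := by
      have h6 : (∑ p ∈ k.divisorsAntidiagonal, (ArithmeticFunction.moebius p.2 : ℤ)) =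
          if k = 1 then 1 else 0 := by
        have h7 : ((ArithmeticFunction.zeta : ArithmeticFunction ℤ) * ArithmeticFunction.moebius) k =
            (1 : ArithmeticFunction ℤ) k := by
          rw [ArithmeticFunction.coe_zeta_mul_moebius]
        rw [ArithmeticFunction.mul_apply, ArithmeticFunction.one_apply] at h7
        rw [← h7]
        refine Finset.sum_congr rfl fun p hp => ?_
        rw [Nat.mem_divisorsAntidiagonal] at hp
        have hp1 : p.1 ≠ 0 := by
          intro h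
          rw [h, zero_mul] at hp
          exact hp.2 hp.1.symm
        simp [hp1]
      have h8 : ((∑ p ∈ k.divisorsAntidiagonal, (ArithmeticFunction.moebius p.2 : ℤ) : ℤ) : ℂ) =
          ((if k = 1 then 1 else 0 : ℤ) : ℂ) := by rw [h6]
      push_cast at h8
      exact h8
    rw [h5]
    split_ifs with hk1
    · rw [hk1]; simp
    · rw [mul_zero]
  rw [Finset.sum_congr rfl h3, Finset.sum_ite_eq']
  rw [if_pos]
  rw [Finset.mem_Ioc]
  exact ⟨one_pos, hN⟩

lemma conv_real (χ : DirichletCharacter ℂ q) {z : ℝ} (N : ℕ) (hz0 : 0 ≤ z) (hz : ⌊z⌋₊ ≤ N) :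
    ∑ n ∈ Finset.Icc 1 N, χ (n : ZMod q) * Mc χ (z / n) = if 1 ≤ z then 1 else 0 := by
  have h1 : ∑ n ∈ Finset.Icc 1 N, χ (n : ZMod q) * Mc χ (z / n) =
      ∑ n ∈ Finset.Icc 1 ⌊z⌋₊, χ (n : ZMod q) * Mc χ (z / n) := by
    symm
    refine Finset.sum_subset (Finset.Icc_subset_Icc_right hz) fun n hn hn2 => ?_
    rw [Finset.mem_Icc] at hn hn2
    have hlt : ⌊z⌋₊ < n := by
      by_contra h
      exact hn2 ⟨hn.1, not_lt.1 h⟩
    have h2 : z < n := (Nat.floor_lt hz0).1 hlt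
    have hn0 : (0 : ℝ) < n := by exact_mod_cast hn.1
    rw [Mc_small χ ((div_lt_one hn0).2 h2), mul_zero]
  rw [h1]
  split_ifs with h
  · have hN : 1 ≤ ⌊z⌋₊ := (Nat.one_le_floor_iff z).2 h
    rw [← conv_one χ ⌊z⌋₊ hN]
    refine Finset.sum_congr rfl fun n _ => ?_
    unfold Mc
    rw [Nat.floor_div_natCast]
  · have : ⌊z⌋₊ = 0 := Nat.floor_eq_zero.2 (not_le.1 h)
    rw [this]
    simp

lemma conv_ac (χ : DirichletCharacter ℂ q) {z : ℝ} (N : ℕ) (hz0 : 0 ≤ z) (hz : ⌊z⌋₊ ≤ N) :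
    ∑ n ∈ Finset.Icc 1 N, ac χ n * Mc χ (z / n) =
      (if 1 ≤ z then 1 else 0) - 2 * (if 2 ≤ z then 1 else 0) := by
  have h1 : ∀ n : ℕ, ac χ n * Mc χ (z / n) = χ (n : ZMod q) * Mc χ (z / n) -
      (if 2 ∣ n then 2 * (χ ((n / 2 : ℕ) : ZMod q) * Mc χ (z / n)) else 0) := by
    intro n
    unfold ac
    split_ifs
    · ring
    · ring
  rw [Finset.sum_congr rfl (fun n _ => h1 n), Finset.sum_sub_distrib, conv_real χ N hz0 hz]
  congr 1
  rw [← Finset.sum_filter]
  have h2 : ∑ n ∈ (Finset.Icc 1 N).filter (fun n => 2 ∣ n),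
      2 * (χ ((n / 2 : ℕ) : ZMod q) * Mc χ (z / n)) =
      ∑ n ∈ Finset.Icc 1 (N / 2), 2 * (χ (n : ZMod q) * Mc χ ((z / 2) / n)) := by
    symm
    refine Finset.sum_bij (fun n _ => 2 * n) ?_ ?_ ?_ ?_
    · intro n hn
      rw [Finset.mem_Icc] at hn
      rw [Finset.mem_filter, Finset.mem_Icc]
      exact ⟨by omega, Dvd.intro n rfl⟩
    · intro n _ m _ h
      exact Nat.eq_of_mul_eq_mul_left two_pos h
    · intro n hn
      rw [Finset.mem_filter, Finset.mem_Icc] at hn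
      obtain ⟨⟨ha, hb⟩, k, hk⟩ := hn
      exact ⟨k, Finset.mem_Icc.2 (by omega), hk.symm⟩
    · intro n _
      have e1 : 2 * n / 2 = n := by omega
      rw [e1]
      have e2 : z / 2 / (n : ℝ) = z / ((2 * n : ℕ) : ℝ) := by
        rw [div_div]
        push_cast
        rfl
      rw [e2]
  rw [h2, ← Finset.mul_sum]
  congr 1
  have h3 := conv_real χ (z := z / 2) (N / 2) (by positivity) (by
    have : ⌊z / (2 : ℕ)⌋₊ = ⌊z⌋₊ / 2 := Nat.floor_div_natCast z 2
    push_cast at this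
    rw [this]
    exact Nat.div_le_div_right hz)
  rw [h3]
  have h4 : (1 ≤ z / 2) ↔ (2 ≤ z) := by
    rw [le_div_iff₀ two_pos]
    norm_num
  simp only [h4]

/-- integrability of the test function -/
lemma ph_int (ρ : ℂ) (r : ℕ) {c : ℝ} (hc : 0 < c) (x : ℝ) :
    IntegrableOn (fun y : ℝ => ph ρ r (y / c) / y) (Ioc 1 x) := by
  have h1 : ContinuousOn (fun y : ℝ => ph ρ r (y / c) / y) (Icc 1 x) := by
    intro y hy
    have hy0 : 0 < y := by linarith [hy.1]
    have hyc : y / c ≠ 0 := (div_pos hy0 hc).ne'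
    refine ContinuousAt.continuousWithinAt ?_
    have h2 : ContinuousAt (fun y : ℝ => y / c) y := (continuous_id.div_const c).continuousAt
    have h3 : ContinuousAt (ph ρ r) (y / c) := by
      unfold ph
      refine (Complex.continuousAt_ofReal_cpow_const _ _ (Or.inr hyc)).mul ?_
      exact (Complex.continuous_ofReal.continuousAt.comp (Real.continuousAt_log hyc)).pow r
    have h4 : ContinuousAt (fun y : ℝ => (y : ℂ)) y := Complex.continuous_ofReal.continuousAt
    exact (ContinuousAt.comp (g := ph ρ r) (f := fun y : ℝ => y / c) h3 h2).div h4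
      (by exact_mod_cast hy0.ne')
  exact (h1.integrableOn_Icc).mono_set Ioc_subset_Icc_self

/-- integrability of the product with a bounded measurable function -/
lemma bd_int (χ : DirichletCharacter ℂ q) (ρ : ℂ) (r : ℕ) {c : ℝ} (hc : 0 < c) {x X : ℝ}
    (hX : 0 ≤ X) : IntegrableOn (fun y : ℝ => Mc χ (X / y) * (ph ρ r (y / c) / y)) (Ioc 1 x) := by
  refine Integrable.bdd_mul (c := X) (ph_int ρ r hc x) ?_ ?_
  · exact ((Mc_meas χ).comp (measurable_const.div measurable_id)).aestronglyMeasurable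
  · refine (ae_restrict_iff' measurableSet_Ioc).2 (Eventually.of_forall fun y hy => ?_)
    have hy0 : 0 < y := by linarith [hy.1]
    refine (Mc_norm χ (by positivity)).trans ?_
    rw [div_le_iff₀ hy0]
    nlinarith [hy.1]

lemma kk_eq (χ : DirichletCharacter ℂ q) (ρ : ℂ) (r : ℕ) {x y : ℝ} (hy0 : 0 ≤ y) (hy : y ≤ x) :
    kk χ ρ r y = ∑ n ∈ Finset.Icc 1 ⌊x⌋₊,
      if (n : ℝ) ≤ y then ac χ n * ph ρ r (y / n) else 0 := by
  unfold kk
  rw [← Finset.sum_filter]
  refine Finset.sum_congr ?_ fun n _ => rfl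
  ext n
  rw [Finset.mem_filter, Finset.mem_Icc, Finset.mem_Icc]
  constructor
  · intro h
    refine ⟨⟨h.1, h.2.trans (Nat.floor_mono hy)⟩, (Nat.le_floor_iff hy0).1 h.2⟩
  · intro h
    exact ⟨h.1.1, (Nat.le_floor_iff hy0).2 h.2⟩

/-- change of variables for one term -/
lemma term_eq (χ : DirichletCharacter ℂ q) (ρ : ℂ) (r : ℕ) {x : ℝ} (n : ℕ) (hn1 : 1 ≤ n)
    (hn : (n : ℝ) ≤ x) :
    ∫ y in Ioc (1 : ℝ) x, (Ici (n : ℝ)).indicator
      (fun y : ℝ => Mc χ (x / y) * (ph ρ r (y / n) / y)) y =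
      ∫ u in Ioc (1 : ℝ) x, Mc χ ((x / u) / n) * (ph ρ r u / u) := by
  have hn0 : (0 : ℝ) < n := by exact_mod_cast hn1
  have hn1' : (1 : ℝ) ≤ n := by exact_mod_cast hn1
  have hx : (1 : ℝ) ≤ x := hn1'.trans hn
  rw [setIntegral_indicator measurableSet_Ici]
  have h1 : (Ioc (1 : ℝ) x ∩ Ici (n : ℝ) : Set ℝ) =ᵐ[volume] (Ioc (n : ℝ) x : Set ℝ) := by
    have h2 : (Ioc (n : ℝ) x : Set ℝ) ⊆ Ioc (1 : ℝ) x ∩ Ici (n : ℝ) := fun y hy =>
      ⟨⟨lt_of_le_of_lt hn1' hy.1, hy.2⟩, hy.1.le⟩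
    have h3 : (Ioc (1 : ℝ) x ∩ Ici (n : ℝ)) \ Ioc (n : ℝ) x ⊆ {(n : ℝ)} := by
      intro y hy
      rw [mem_singleton_iff]
      by_contra h
      exact hy.2 ⟨lt_of_le_of_ne hy.1.2 (Ne.symm h), hy.1.1.2⟩
    have h4 : volume ((Ioc (1 : ℝ) x ∩ Ici (n : ℝ)) \ Ioc (n : ℝ) x) = 0 :=
      measure_mono_null h3 (measure_singleton _)
    exact (LE.le.eventuallyLE h2).antisymm
      (ae_le_set.2 h4) |>.symm
  rw [setIntegral_congr_set h1, ← intervalIntegral.integral_of_le hn]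
  have h5 : ∫ u in Ioc (1 : ℝ) x, Mc χ ((x / u) / n) * (ph ρ r u / u) =
      ∫ u in Ioc (1 : ℝ) (x / n), Mc χ ((x / u) / n) * (ph ρ r u / u) := by
    refine setIntegral_eq_of_subset_of_forall_sdiff_eq_zero measurableSet_Ioc ?_ ?_
    · exact Ioc_subset_Ioc_right (div_le_self (by linarith) hn1')
    · intro u hu
      have hu1 : 1 < u := hu.1.1
      have hu2 : x / n < u := by
        by_contra h
        exact hu.2 ⟨hu1, not_lt.1 h⟩
      have : x / u / n < 1 := by
        rw [div_div, div_lt_one (by positivity)]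
        rw [div_lt_iff₀ hn0] at hu2
        exact hu2
      rw [Mc_small χ this, zero_mul]
  have h6 : (1 : ℝ) ≤ x / n := by rwa [le_div_iff₀ hn0, one_mul]
  rw [h5, ← intervalIntegral.integral_of_le h6]
  have h7 := intervalIntegral.smul_integral_comp_mul_left (a := 1) (b := x / n)
    (fun y : ℝ => Mc χ (x / y) * (ph ρ r (y / n) / y)) (n : ℝ)
  rw [mul_one, mul_div_cancel₀ _ hn0.ne'] at h7
  rw [← h7, ← intervalIntegral.integral_smul]
  refine intervalIntegral.integral_congr_ae (Eventually.of_forall fun u hu => ?_)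
  rw [uIoc_of_le h6] at hu
  have hu0 : 0 < u := by linarith [hu.1]
  have e1 : x / ((n : ℝ) * u) = x / u / n := by
    rw [div_div, mul_comm]
  have e2 : (n : ℝ) * u / n = u := by field_simp
  simp only [e1, e2]
  rw [Complex.real_smul]
  push_cast
  have hnc : (n : ℂ) ≠ 0 := by exact_mod_cast hn0.ne'
  have huc : (u : ℂ) ≠ 0 := by exact_mod_cast hu0.ne'
  field_simp

theorem t_X3 : J_X3 := by
  intro q _ χ ρ r _ x hx
  have hx0 : 0 ≤ x := by linarith
  have hterm : ∀ n ∈ Finset.Icc 1 ⌊x⌋₊, (1 ≤ n ∧ (n : ℝ) ≤ x) := by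
    intro n hn
    rw [Finset.mem_Icc] at hn
    exact ⟨hn.1, (Nat.le_floor_iff hx0).1 hn.2⟩
  -- the integrand as a finite sum
  have hA : EqOn (fun y : ℝ => Mc χ (x / y) * kk χ ρ r y / y)
      (fun y : ℝ => ∑ n ∈ Finset.Icc 1 ⌊x⌋₊, ac χ n * (Ici (n : ℝ)).indicator
        (fun y : ℝ => Mc χ (x / y) * (ph ρ r (y / n) / y)) y) (Ioc 1 x) := by
    intro y hy
    have hy0 : 0 ≤ y := by linarith [hy.1]
    simp only
    rw [kk_eq χ ρ r hy0 hy.2, Finset.mul_sum, Finset.sum_div]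
    refine Finset.sum_congr rfl fun n _ => ?_
    by_cases h : (n : ℝ) ≤ y
    · rw [if_pos h, indicator_of_mem (mem_Ici.2 h)]
      ring
    · rw [if_neg h, indicator_of_notMem (by rwa [mem_Ici])]
      ring
  have hI : ∀ n ∈ Finset.Icc 1 ⌊x⌋₊, IntegrableOn (fun y : ℝ => ac χ n * (Ici (n : ℝ)).indicator
        (fun y : ℝ => Mc χ (x / y) * (ph ρ r (y / n) / y)) y) (Ioc 1 x) := by
    intro n hn
    have hn0 : (0 : ℝ) < n := by exact_mod_cast (hterm n hn).1
    exact ((bd_int χ ρ r hn0 hx0).indicator measurableSet_Ici).const_mul _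
  refine ⟨?_, ?_⟩
  · refine IntegrableOn.congr_fun (integrable_finsetSum _ hI) hA.symm measurableSet_Ioc
  · rw [setIntegral_congr_fun measurableSet_Ioc hA, integral_finsetSum _ hI]
    have h1 : ∀ n ∈ Finset.Icc 1 ⌊x⌋₊, ∫ y in Ioc (1 : ℝ) x, ac χ n * (Ici (n : ℝ)).indicator
        (fun y : ℝ => Mc χ (x / y) * (ph ρ r (y / n) / y)) y =
        ∫ u in Ioc (1 : ℝ) x, ac χ n * (Mc χ ((x / u) / n) * (ph ρ r u / u)) := by
      intro n hn
      rw [integral_const_mul, term_eq χ ρ r n (hterm n hn).1 (hterm n hn).2, integral_const_mul]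
    rw [Finset.sum_congr rfl h1, ← integral_finsetSum]
    · have h2 : EqOn (fun u : ℝ => ∑ n ∈ Finset.Icc 1 ⌊x⌋₊,
          ac χ n * (Mc χ ((x / u) / n) * (ph ρ r u / u)))
          (fun u : ℝ => ph ρ r u / u - 2 * (Iic (x / 2)).indicator (fun u : ℝ => ph ρ r u / u) u)
          (Ioc 1 x) := by
        intro u hu
        have hu0 : 0 < u := by linarith [hu.1]
        have hle : x / u ≤ x := div_le_self hx0 hu.1.le
        have h3 := conv_ac χ (z := x / u) ⌊x⌋₊ (by positivity) (Nat.floor_mono hle)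
        have h4 : (1 : ℝ) ≤ x / u := by rw [le_div_iff₀ hu0, one_mul]; exact hu.2
        rw [if_pos h4] at h3
        simp only
        have h5 : ∑ n ∈ Finset.Icc 1 ⌊x⌋₊, ac χ n * (Mc χ ((x / u) / n) * (ph ρ r u / u)) =
            (∑ n ∈ Finset.Icc 1 ⌊x⌋₊, ac χ n * Mc χ ((x / u) / n)) * (ph ρ r u / u) := by
          rw [Finset.sum_mul]
          refine Finset.sum_congr rfl fun n _ => ?_
          ring
        rw [h5, h3]
        by_cases h6 : u ≤ x / 2
        · have h7 : (2 : ℝ) ≤ x / u := by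
            rw [le_div_iff₀ hu0]; linarith
          rw [if_pos h7, indicator_of_mem (mem_Iic.2 h6)]
          ring
        · have h7 : ¬ (2 : ℝ) ≤ x / u := by
            rw [le_div_iff₀ hu0]; intro h; apply h6; linarith
          rw [if_neg h7, indicator_of_notMem (by rwa [mem_Iic])]
          ring
      rw [setIntegral_congr_fun measurableSet_Ioc h2]
      have hp : IntegrableOn (fun u : ℝ => ph ρ r u / u) (Ioc 1 x) := by
        have := ph_int ρ r one_pos x
        simpa only [div_one] using this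
      rw [integral_sub hp ((hp.indicator measurableSet_Iic).const_mul _), integral_const_mul,
        setIntegral_indicator measurableSet_Iic]
      unfold Gr
      have h8 : Ioc (1 : ℝ) x ∩ Iic (x / 2) = Ioc 1 (x / 2) := by
        ext u
        simp only [mem_inter_iff, mem_Ioc, mem_Iic]
        constructor
        · intro h; exact ⟨h.1.1, h.2⟩
        · intro h; exact ⟨⟨h.1, by linarith [h.2]⟩, h.2⟩
      rw [h8]
    · intro n hn
      have hn0 : (0 : ℝ) < n := by exact_mod_cast (hterm n hn).1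
      have h9 := (bd_int χ ρ r one_pos (x := x) (X := x / n) (by positivity)).const_mul (ac χ n)
      refine h9.congr (Eventually.of_forall fun u => ?_)
      simp only [div_one]
      have : x / (n : ℝ) / u = x / u / n := by
        rw [div_div, div_div, mul_comm]
      rw [this]

end Pool.Agent.Q79.FX
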